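import Pool.Agent.helper56.P3.Defs2

/-!
# P3, module A1 (WBasic): algebra of W-cycles
-/

namespace Pool.Agent.helper56.P3

open Finset Pool.Agent.helper56.Per

section A1

variable {K : Type*} [Field K] {a b c : K} {n m : ℕ} {lam lam' : K} {W W' : ℕ → K}

theorem toW {z : ℕ → K} (h : NCyc a b n lam z) (hex : Exact n z) (hb : b ≠ 0)
    (hc : c ^ 2 = 1 - a * b) (hc0 : c ≠ 0) : WCyc b c n lam (fun i => (b * z i + 1) / c) where
  npos := h.npos
  b0 := hb
  c0 := hc0
  ne0 := fun i => div_ne_zero (h.den i) hc0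
  ne1 := fun i => by
    rw [mul_div_cancel₀ _ hc0]
    intro h1
    exact mul_ne_zero hb (h.ne0 i) (by linear_combination h1)
  step := fun i => by
    have h1 := h.step i
    field_simp
    linear_combination b ^ 2 * h1 + (b * z i) * hc
  per := fun i => by simp only [h.per i]
  inj := fun i j hij => hex i j (by
    have h1 : b * z i + 1 = b * z j + 1 := by
      have := congrArg (· * c) hij
      simpa only [div_mul_cancel₀ _ hc0] using this
    exact mul_left_cancel₀ hb (by linear_combination h1))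
  mul := by
    have h1 : ∀ i, ((b * z i + 1) / c) ^ 2 - 1 = b / c ^ 2 * (b * z i ^ 2 + 2 * z i + a) := by
      intro i
      field_simp
      linear_combination (-1 : K) * hc
    have h2 : ∀ i, ((b * z i + 1) / c) ^ 2 = (c ^ 2)⁻¹ * (b * z i + 1) ^ 2 := by
      intro i; field_simp
    have e1 : ∏ i ∈ range n, (((b * z i + 1) / c) ^ 2 - 1) =
        (b / c ^ 2) ^ n * ∏ i ∈ range n, (b * z i ^ 2 + 2 * z i + a) := by
      rw [prod_congr rfl fun i _ => h1 i, prod_mul_distrib, prod_const, card_range]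
    have e2 : ∏ i ∈ range n, ((b * z i + 1) / c) ^ 2 =
        (c ^ 2)⁻¹ ^ n * ∏ i ∈ range n, (b * z i + 1) ^ 2 := by
      rw [prod_congr rfl fun i _ => h2 i, prod_mul_distrib, prod_const, card_range]
    rw [e1, e2, h.mul, div_eq_mul_inv, mul_pow]
    ring

theorem EN_eq_EW {z y : K} (hb : b ≠ 0) (hc : c ^ 2 = 1 - a * b) (hc0 : c ≠ 0) :
    EN a b z y = EW ((b * z + 1) / c) ((b * y + 1) / c) := by
  unfold EN EW
  have h1 : ∀ z : K, ((b * z + 1) / c) ^ 2 - 1 = b / c ^ 2 * (b * z ^ 2 + 2 * z + a) := by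
    intro z
    field_simp
    linear_combination (-1 : K) * hc
  have h2 : ((b * z + 1) / c - (b * y + 1) / c) ^ 2 = (b / c ^ 2) ^ 2 * (c ^ 2 * (z - y) ^ 2) := by
    field_simp
    ring
  rw [h1, h1, h2, show b / c ^ 2 * (b * z ^ 2 + 2 * z + a) * (b / c ^ 2 * (b * y ^ 2 + 2 * y + a)) =
    (b / c ^ 2) ^ 2 * ((b * z ^ 2 + 2 * z + a) * (b * y ^ 2 + 2 * y + a)) by ring,
    mul_div_mul_left _ _ (pow_ne_zero 2 (div_ne_zero hb (pow_ne_zero 2 hc0))), ← hc]

theorem WCyc.step' (h : WCyc b c n lam W) (i : ℕ) :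
    W (i + 1) = (W i + (W i)⁻¹ + (b - 1 - c ^ 2) / c) / b := by
  have h0 := h.ne0 i
  have hb := h.b0
  have hc := h.c0
  have h1 := h.step i
  field_simp
  linear_combination h1

/-- the same for an arbitrary orbit segment `x 0, …, x j` -/
theorem iter_orbit {x : ℕ → K} (hb0 : b ≠ 0) (hb1 : b ≠ 1) (hc0 : c ≠ 0) (j : ℕ)
    (hx : ∀ l < j, x (l + 1) = (x l + (x l)⁻¹ + (b - 1 - c ^ 2) / c) / b) :
    x j = b⁻¹ ^ j * x 0 + Us b c * TT b c j + ∑ l ∈ range j, b⁻¹ ^ (j - l) * (x l)⁻¹ := by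
  induction j with
  | zero => simp [TT]
  | succ j ih =>
    rw [hx j (Nat.lt_succ_self j), sum_range_succ, Nat.add_sub_cancel_left, pow_one]
    have h1 : ∑ l ∈ range j, b⁻¹ ^ (j + 1 - l) * (x l)⁻¹ =
        b⁻¹ * ∑ l ∈ range j, b⁻¹ ^ (j - l) * (x l)⁻¹ := by
      rw [mul_sum]
      refine sum_congr rfl fun l hl => ?_
      rw [Nat.succ_sub (mem_range.1 hl).le, pow_succ]
      ring
    have h2 : Us b c * TT b c (j + 1) = b⁻¹ * (Us b c * TT b c j) + b⁻¹ * ((b - 1 - c ^ 2) / c) := by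
      have hb1' : b - 1 ≠ 0 := sub_ne_zero.2 hb1
      unfold Us TT
      rw [pow_succ b⁻¹ j]
      generalize b⁻¹ ^ j = B
      field_simp
      ring
    have h3 := ih fun l hl => hx l (hl.trans (Nat.lt_succ_self j))
    rw [h1, h2, div_eq_inv_mul]
    rw [pow_succ b⁻¹ j]
    linear_combination b⁻¹ * h3

theorem WCyc.iter (h : WCyc b c n lam W) (hb1 : b ≠ 1) (i j : ℕ) :
    W (i + j) = b⁻¹ ^ j * W i + Us b c * TT b c j
      + ∑ l ∈ range j, b⁻¹ ^ (j - l) * (W (i + l))⁻¹ :=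
  iter_orbit (x := fun l => W (i + l)) h.b0 hb1 h.c0 j fun l _ => h.step' (i + l)

private theorem WCyc.telescope (n : ℕ) {b : K} (D : ℕ → K) (hD : ∀ i, D i ≠ 0)
    (hper : D n = D 0) (g : ℕ → K) (hg : ∀ i, g i * D i = b * D (i + 1)) :
    ∏ i ∈ range n, g i = b ^ n := by
  have h1 : ∏ i ∈ range n, (g i * D i) = ∏ i ∈ range n, (b * D (i + 1)) :=
    prod_congr rfl fun i _ => hg i
  rw [prod_mul_distrib, prod_mul_distrib, prod_const, card_range, prod_shift D n hper] at h1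
  exact mul_right_cancel₀ (prod_ne_zero_iff.2 fun i _ => hD i) h1

/-- `∏ (1 - c/W_i) = b^n` (uses `ne1`) -/
theorem WCyc.prod_one (h : WCyc b c n lam W) : ∏ i ∈ range n, (1 - c / W i) = b ^ n := by
  refine WCyc.telescope n (fun i => c * W i - 1) (fun i => sub_ne_zero.2 (h.ne1 i)) ?_ _
    fun i => ?_
  · have := h.per 0
    rw [zero_add] at this
    simp only [this]
  · have h0 := h.ne0 i
    have h1 := h.step i
    field_simp
    linear_combination (-1 : K) * h1

theorem WCyc.diff (h : WCyc b c n lam W) (h' : WCyc b c m lam' W') (i j : ℕ) :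
    W (i + 1) - W' (j + 1) = (W i - W' j) * (1 - (W i * W' j)⁻¹) / b := by
  have h0 := h.ne0 i
  have h0' := h'.ne0 j
  have hb := h.b0
  rw [h.step', h'.step']
  field_simp
  ring

theorem WCyc.lam_prod (h : WCyc b c n lam W) :
    ∏ i ∈ range n, (1 - (W i ^ 2)⁻¹) = lam * b ^ n := by
  have h1 := h.mul
  have h2 : ∏ i ∈ range n, W i ^ 2 ≠ 0 := prod_ne_zero_iff.2 fun i _ => pow_ne_zero 2 (h.ne0 i)
  refine mul_right_cancel₀ h2 ?_
  rw [← h1, ← prod_mul_distrib]
  refine prod_congr rfl fun i _ => ?_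
  have h0 := h.ne0 i
  field_simp

/-- self pairs: `∏ (1 - 1/(W_{i+r} W_i)) = b^n` if `n ∤ r` -/
theorem WCyc.shift_prod (h : WCyc b c n lam W) {r : ℕ} (hr : ¬ n ∣ r) :
    ∏ i ∈ range n, (1 - (W (i + r) * W i)⁻¹) = b ^ n := by
  refine WCyc.telescope n (fun i => W (i + r) - W i) (fun i hi => hr ?_) ?_ _ fun i => ?_
  · have h1 := h.inj _ _ (sub_eq_zero.1 hi)
    have h2 : i + r ≡ i + 0 [MOD n] := h1
    exact (Nat.modEq_zero_iff_dvd).1 (Nat.ModEq.add_left_cancel' i h2)
  · have h1 := h.per 0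
    have h2 := h.per r
    simp only [zero_add] at h1 ⊢
    rw [add_comm n r, h2, h1]
  · have h1 := h.diff h (i + r) i
    have hb := h.b0
    show (1 - (W (i + r) * W i)⁻¹) * (W (i + r) - W i) = b * (W (i + 1 + r) - W (i + 1))
    rw [show i + 1 + r = i + r + 1 by ring, h1]
    field_simp

/-- `∏ (1 + E_ij) = λ^{-m} λ'^{-n}` for disjoint cycles, cleared of denominators. -/
theorem pair_prod (h : WCyc b c n lam W) (h' : WCyc b c m lam' W') (hne : ∀ i j, W i ≠ W' j) :
    lam ^ m * lam' ^ n * ∏ i ∈ range n, ∏ j ∈ range m, (1 - W i * W' j) ^ 2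
      = ∏ i ∈ range n, ∏ j ∈ range m, ((W i ^ 2 - 1) * (W' j ^ 2 - 1)) := by
  have hb := h.b0
  -- the product of the pair factors
  have hp : ∏ i ∈ range n, ∏ j ∈ range m, (1 - (W i * W' j)⁻¹) = b ^ (n * m) := by
    have h1 : ∏ i ∈ range n, ∏ j ∈ range m, ((1 - (W i * W' j)⁻¹) * (W i - W' j)) =
        ∏ i ∈ range n, ∏ j ∈ range m, (b * (W (i + 1) - W' (j + 1))) := by
      refine prod_congr rfl fun i _ => prod_congr rfl fun j _ => ?_
      rw [h.diff h' i j]
      field_simp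
    have hn : W n = W 0 := by have := h.per 0; rwa [zero_add] at this
    have hm : W' m = W' 0 := by have := h'.per 0; rwa [zero_add] at this
    have h2 : ∏ i ∈ range n, ∏ j ∈ range m, (W (i + 1) - W' (j + 1)) =
        ∏ i ∈ range n, ∏ j ∈ range m, (W i - W' j) := by
      have h3 : ∀ i, ∏ j ∈ range m, (W (i + 1) - W' (j + 1)) = ∏ j ∈ range m, (W (i + 1) - W' j) :=
        fun i => prod_shift (fun j => W (i + 1) - W' j) m (by simp only [hm])
      rw [prod_congr rfl fun i _ => h3 i]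
      exact prod_shift (fun i => ∏ j ∈ range m, (W i - W' j)) n (by simp only [hn])
    simp only [prod_mul_distrib, prod_const, card_range] at h1
    rw [h2, ← pow_mul, mul_comm m n] at h1
    refine mul_right_cancel₀ (prod_ne_zero_iff.2 fun i _ => prod_ne_zero_iff.2 fun j _ =>
      sub_ne_zero.2 (hne i j)) h1
  have hsq : ∏ i ∈ range n, ∏ j ∈ range m, (1 - W i * W' j) ^ 2 =
      b ^ (n * m) * b ^ (n * m) * ((∏ i ∈ range n, W i ^ 2) ^ m * (∏ j ∈ range m, W' j ^ 2) ^ n) := by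
    have h4 : ∀ i j, (1 - W i * W' j) ^ 2 =
        (1 - (W i * W' j)⁻¹) * (1 - (W i * W' j)⁻¹) * (W i ^ 2 * W' j ^ 2) := by
      intro i j
      have h0 := h.ne0 i
      have h0' := h'.ne0 j
      field_simp
      ring
    simp only [h4]
    simp only [prod_mul_distrib (M := K), hp, prod_const, card_range, prod_pow (M := K)]
    ring
  have hr : ∏ i ∈ range n, ∏ j ∈ range m, ((W i ^ 2 - 1) * (W' j ^ 2 - 1)) =
      (∏ i ∈ range n, (W i ^ 2 - 1)) ^ m * (∏ j ∈ range m, (W' j ^ 2 - 1)) ^ n := by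
    simp only [prod_mul_distrib (M := K), prod_const, card_range, prod_pow (M := K)]
  rw [hsq, hr, h.mul, h'.mul]
  ring

theorem WCyc.neg (h : WCyc b c n lam W) : WCyc b (-c) n lam (fun i => -W i) where
  npos := h.npos
  b0 := h.b0
  c0 := neg_ne_zero.2 h.c0
  ne0 := fun i => neg_ne_zero.2 (h.ne0 i)
  ne1 := fun i => by rw [neg_mul_neg]; exact h.ne1 i
  step := fun i => by linear_combination (-1 : K) * h.step i
  per := fun i => by simp only [h.per i]
  inj := fun i j hij => h.inj i j (neg_injective hij)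
  mul := by simpa only [neg_sq] using h.mul

end A1

end Pool.Agent.helper56.P3
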