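import Pool.Agent.helper96.P3.Return
import Pool.Agent.helper95.P3.ClassifyA
import Pool.Agent.helper95.P3.ClassifyB

/-!
# P3, module N1 (FixedCase): a fixed point whose multiplier is a root of unity, and a cycle
-/

namespace Pool.Agent.helper56.P3

open Finset Pool.Agent.helper56.Per

section N1aux

variable {K : Type*} [Field K] {b c : K} {n m q : ℕ} {lam lam' : K} {W W' : ℕ → K}
variable {Γ : Type*} [LinearOrderedCommGroupWithZero Γ] (v : Valuation K Γ)

/-- bounded coefficients: all points are `≥ 1` -/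
theorem N1.all_ge (h : WCyc b c n lam W) (hb : v b = 1) (hs : v ((b - 1 - c ^ 2) / c) ≤ 1)
    (i : ℕ) : 1 ≤ v (W i) := by
  by_contra hlt
  rw [not_le] at hlt
  have hne : v (W i) ≠ 0 := v.ne_zero_iff.2 (h.ne0 i)
  have hinv : 1 < v (W i)⁻¹ := by
    rw [map_inv₀]; exact (one_lt_inv₀ (zero_lt_iff.2 hne)).2 hlt
  have key : ∀ l, v (W (i + 1 + l)) = v (W i)⁻¹ := by
    intro l
    induction l with
    | zero =>
      rw [add_zero, h.step', map_div₀, hb, div_one,
        show W i + (W i)⁻¹ + (b - 1 - c ^ 2) / c = (W i)⁻¹ + (W i + (b - 1 - c ^ 2) / c) by ring]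
      exact Valuation.map_add_eq_of_lt_left _ ((v.map_add_le hlt.le hs).trans_lt hinv)
    | succ l ih =>
      have h1 : 1 < v (W (i + 1 + l)) := ih ▸ hinv
      have h2 : v (W (i + 1 + l))⁻¹ ≤ 1 := by
        rw [map_inv₀]; exact inv_le_one_of_one_le₀ h1.le
      rw [← ih, ← add_assoc, h.step', map_div₀, hb, div_one, add_assoc]
      exact Valuation.map_add_eq_of_lt_left _ ((v.map_add_le h2 hs).trans_lt h1)
  have hn := h.npos
  have h1 := key (n - 1)
  rw [show i + 1 + (n - 1) = i + n by omega, h.per] at h1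
  rw [h1] at hlt
  exact absurd hlt (not_lt.2 hinv.le)

theorem N1.prod_inv_le {f : ℕ → K} (hf : ∀ i, 1 ≤ v (f i)) (n : ℕ) :
    v (∏ i ∈ range n, (f i)⁻¹) ≤ 1 := by
  rw [map_prod]
  refine prod_le_one' fun i _ => ?_
  rw [map_inv₀]
  exact inv_le_one_of_one_le₀ (hf i)

theorem N1.prod_inv_lt {f : ℕ → K} (hf : ∀ i, 1 ≤ v (f i)) {n j : ℕ} (hj : j < n)
    (hfj : 1 < v (f j)) : v (∏ i ∈ range n, (f i)⁻¹) < 1 := by
  rw [map_prod, ← mul_prod_erase _ _ (mem_range.2 hj)]
  refine lt1_of_lt_of_le ?_ (prod_le_one' fun i _ => ?_)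
  · rw [map_inv₀]; exact inv_lt_one_of_one_lt₀ hfj
  · rw [map_inv₀]; exact inv_le_one_of_one_le₀ (hf i)

theorem N1.per_mul (h : WCyc b c n lam W) (i j : ℕ) : W (i + n * j) = W i := by
  induction j with
  | zero => rfl
  | succ j ih => rw [Nat.mul_succ, ← add_assoc, h.per, ih]

theorem N1.per_mod (h : WCyc b c n lam W) (i : ℕ) : W (i % n) = W i := by
  conv_rhs => rw [← Nat.mod_add_div i n, N1.per_mul h]

/-- finite places -/
theorem N1.finite (h : WCyc b c n lam W) (hb : v b = 1) (hl : v lam = 1)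
    (hs : v ((b - 1 - c ^ 2) / c) ≤ 1) : v (∏ i ∈ range n, (W i ^ 2 - 1)⁻¹) ≤ 1 := by
  have hge := N1.all_ge v h hb hs
  refine N1.prod_inv_le v (fun i => ?_) n
  rw [h.no_near v hb hl hge i]
  exact one_le_pow₀ (hge i)

/-- rational numbers are units -/
theorem N1.v_rat [CharZero K] (hz : CharZ v) {r : ℚ} (hr : r ≠ 0) : v (r : K) = 1 := by
  have h1 : v ((r.num : ℤ) : K) = 1 := by
    have h2 : (r.num.natAbs : ℕ) ≠ 0 := Int.natAbs_ne_zero.2 (Rat.num_ne_zero.2 hr)
    have h3 := hz _ h2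
    rcases Int.natAbs_eq r.num with h | h
    · rw [h, Int.cast_natCast]; exact h3
    · rw [h, Int.cast_neg, Int.cast_natCast, Valuation.map_neg]; exact h3
  rw [Rat.cast_def, map_div₀, h1, hz _ r.den_nz, div_one]

/-- the orbit of `1` under `x ↦ x + 1/x` -/
noncomputable def N1.rr : ℕ → ℚ
  | 0 => 1
  | j + 1 => N1.rr j + (N1.rr j)⁻¹

theorem N1.rr_pos (j : ℕ) : 0 < N1.rr j := by
  induction j with
  | zero => exact one_pos
  | succ j ih => exact add_pos ih (inv_pos.2 ih)

theorem N1.no_II [CharZero K] (hc : Ctx v b c) (hz : CharZ v) (hr : Rot v b c q) (hq : b ^ q = 1)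
    (h : WCyc b c n lam W) (hl : v lam = 1) (hII : TyII v W) : False := by
  obtain ⟨i, h1, h2⟩ := h.near_exists v hc.vb hl hII
  have hv2 : v 2 = 1 := by
    have := hz 2 (by norm_num)
    rwa [Nat.cast_ofNat] at this
  -- the sign
  obtain ⟨ε, hε, hεW⟩ : ∃ ε : K, ε ^ 2 = 1 ∧ v (W i - ε) < 1 := by
    by_contra hno
    push Not at hno
    have a1 := hno 1 (one_pow 2)
    have a2 := hno (-1) (by norm_num)
    have e : W i ^ 2 - 1 = (W i - 1) * (W i - -1) := by ring
    rw [e, map_mul] at h2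
    exact absurd h2 (not_lt.2 (one_le_mul a1 a2))
  have hvε : v ε = 1 := by
    have : v ε ^ 2 = 1 := by rw [← map_pow, hε, map_one]
    exact (pow_eq_one_iff.1 this).resolve_right (by norm_num)
  have hε0 : ε ≠ 0 := by rintro rfl; rw [map_zero] at hvε; exact zero_ne_one hvε
  have hT : TT b c q = 0 := by
    unfold TT; rw [inv_pow, hq, inv_one, sub_self, zero_div]
  have hq0 : 0 < q := by have := hr.two_le; omega
  have key : ∀ j, v (W (i + q * j) - ε * (N1.rr j : ℚ)) < 1 := by
    intro j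
    induction j with
    | zero => simpa [N1.rr] using hεW
    | succ j ih =>
      have hr0 : v ((N1.rr j : ℚ) : K) = 1 := N1.v_rat v hz (N1.rr_pos j).ne'
      have hw1 : v (W (i + q * j)) = 1 := by
        have e : W (i + q * j) = ε * (N1.rr j : ℚ) + (W (i + q * j) - ε * (N1.rr j : ℚ)) := by ring
        have e1 : v (ε * ((N1.rr j : ℚ) : K)) = 1 := by rw [map_mul, hvε, hr0, one_mul]
        rw [e, Valuation.map_add_eq_of_lt_left _ (by rw [e1]; exact ih), e1]
      have h3 := (h.central_next v hc hr hw1).2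
      rw [hT, add_zero] at h3
      have hW0 := h.ne0 (i + q * j)
      have hr0' : ((N1.rr j : ℚ) : K) ≠ 0 := Rat.cast_ne_zero.2 (N1.rr_pos j).ne'
      have e2 : W (i + q * (j + 1)) - ε * (N1.rr (j + 1) : ℚ) =
          (W (i + q * j + q) - (W (i + q * j) + (W (i + q * j))⁻¹)) +
          ((W (i + q * j) - ε * (N1.rr j : ℚ)) * (1 - ε * ((W (i + q * j))⁻¹ * ((N1.rr j : ℚ) : K)⁻¹))) := by
        rw [show i + q * (j + 1) = i + q * j + q by ring]
        simp only [N1.rr, Rat.cast_add, Rat.cast_inv]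
        field_simp
        linear_combination (-((N1.rr j : ℚ) : K)) * hε
      rw [e2]
      refine Valuation.map_add_lt _ h3 ?_
      rw [map_mul]
      refine lt1_of_lt_of_le ih (v.map_sub_le (by rw [map_one]) ?_)
      rw [map_mul, map_mul, map_inv₀, map_inv₀, hw1, hr0, hvε]
      simp
  have hcen : ∀ j, v (W (i + q * j)) = 1 := by
    intro j
    have hr0 : v ((N1.rr j : ℚ) : K) = 1 := N1.v_rat v hz (N1.rr_pos j).ne'
    have e : W (i + q * j) = ε * (N1.rr j : ℚ) + (W (i + q * j) - ε * (N1.rr j : ℚ)) := by ring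
    have e1 : v (ε * ((N1.rr j : ℚ) : K)) = 1 := by rw [map_mul, hvε, hr0, one_mul]
    rw [e, Valuation.map_add_eq_of_lt_left _ (by rw [e1]; exact key j), e1]
  have hall : ∀ t, 1 ≤ v (W (i + t)) := by
    intro t
    rw [← Nat.div_add_mod t q, ← add_assoc]
    rcases Nat.eq_zero_or_pos (t % q) with h0 | h0
    · rw [h0, add_zero, hcen]
    · exact ((h.central_next v hc hr (hcen (t / q))).1 _ h0 (Nat.mod_lt _ hq0)).1.le
  obtain ⟨i0, hi0⟩ := hII
  have hn := h.npos
  have h5 : i0 + n * i = i + (i0 + (n * i - i)) := by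
    have : i ≤ n * i := Nat.le_mul_of_pos_left i hn
    omega
  have h6 := hall (i0 + (n * i - i))
  rw [← h5, N1.per_mul h] at h6
  exact absurd hi0 (not_lt.2 h6)

/-- infinite places -/
theorem N1.infinite [CharZero K] (hc : Ctx v b c) (hz : CharZ v) (hr : Rot v b c q)
    (hq : b ^ q = 1) (h : WCyc b c n lam W) (hl : v lam = 1) :
    v (∏ i ∈ range n, (W i ^ 2 - 1)⁻¹) < 1 := by
  have hbig : ∀ i, 1 < v (W i) → v (W i ^ 2 - 1) = v (W i) ^ 2 := fun i hi => by
    rw [← map_pow]
    refine Valuation.map_sub_eq_of_lt_left _ ?_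
    rw [map_one, map_pow]
    exact one_lt_pow₀ hi (by norm_num)
  have hn := h.npos
  rcases classify v hc hz h hl with ⟨hO, _⟩ | ⟨q', _, hr', hI | hII⟩
  · refine N1.prod_inv_lt v (f := fun i => W i ^ 2 - 1) (fun i => ?_) hn ?_
    · rw [hbig i (hO i)]; exact one_le_pow₀ (hO i).le
    · rw [hbig 0 (hO 0)]; exact one_lt_pow₀ (hO 0) (by norm_num)
  · have hge : ∀ i, 1 ≤ v (W i ^ 2 - 1) := by
      intro i
      rcases (hI.1 i).eq_or_lt with h1 | h1
      · rw [hI.2.2 i h1.symm]
      · rw [hbig i h1]; exact one_le_pow₀ h1.le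
    obtain ⟨i, hi⟩ := hI.2.1
    have h2 := ((h.central_next v hc hr' hi).1 1 one_pos (by have := hr'.two_le; omega)).1
    refine N1.prod_inv_lt v (f := fun i => W i ^ 2 - 1) hge (Nat.mod_lt (i + 1) hn) ?_
    simp only [N1.per_mod h]
    rw [hbig _ h2]
    exact one_lt_pow₀ h2 (by norm_num)
  · exact (N1.no_II v hc hz hr hq h hl hII).elim

/-- the other choice of `c` -/
theorem N1.other (h : WCyc b c n lam W) (hn : 2 ≤ n) (hb1 : b ≠ 1) :
    WCyc b (-(b - 1) / c) n lam W := by
  have hb := h.b0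
  have hc := h.c0
  have hb1' : b - 1 ≠ 0 := sub_ne_zero.2 hb1
  have hstep : ∀ i, b * W (i + 1) * W i = W i ^ 2 + 1 + ((b - 1) / c - c) * W i := by
    intro i
    have h1 := h.step i
    field_simp
    linear_combination h1
  refine ⟨h.npos, hb, div_ne_zero (neg_ne_zero.2 hb1') hc, h.ne0, fun i hi => ?_, fun i => ?_,
    h.per, h.inj, h.mul⟩
  · -- `W i` would be a fixed point
    have h0 := h.ne0 i
    have h1 := hstep i
    have h2 : -(b - 1) * W i = c := by
      field_simp at hi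
      linear_combination hi
    have h3 : b * W i * (W (i + 1) - W i) = 0 := by
      have h4 : c * (b * W i * (W (i + 1) - W i)) = 0 := by
        have : (b - 1) / c * c = b - 1 := by field_simp
        linear_combination c * h1 + W i * this + (c * W i - 1) * h2
      exact (mul_eq_zero.1 h4).resolve_left hc
    have h5 : W (i + 1) = W i := by
      rcases mul_eq_zero.1 h3 with h6 | h6
      · exact absurd h6 (mul_ne_zero hb h0)
      · exact sub_eq_zero.1 h6
    have h6 := h.inj _ _ h5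
    have h7 : i + 1 ≡ i + 0 [MOD n] := h6
    have h8 := (Nat.modEq_zero_iff_dvd).1 (Nat.ModEq.add_left_cancel' i h7)
    have := Nat.le_of_dvd one_pos h8
    omega
  · have h1 := hstep i
    have h2 : (b - 1) / c * c = b - 1 := by field_simp
    linear_combination (-(b - 1) / c) * h1 + W i * h2

end N1aux

section N1

variable {k K : Type*} [Field k] [Field K] [Algebra k K] [IsAlgClosed k] [IsAlgClosed K]
  [CharZero k] {m q : ℕ}

theorem n1_generic (hm : 2 ≤ m) {ζ lam' : k} (hq : 2 ≤ q) (hζ : IsPrimitiveRoot ζ q)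
    (l0' : lam' ≠ 0) {a : K} (ha : a ∉ Set.range (algebraMap k K))
    {y : ℕ → K} (hy : NCyc a (algebraMap k K ζ) m (algebraMap k K lam') y)
    (hyx : Exact m y) : False := by
  have : CharZero K := charZero_of_injective_algebraMap (algebraMap k K).injective
  set b : K := algebraMap k K ζ with hb
  have hζ0 : ζ ≠ 0 := hζ.ne_zero (by omega)
  have hζ1 : ζ ≠ 1 := hζ.ne_one (by omega)
  have hb0 : b ≠ 0 := (_root_.map_ne_zero _).2 hζ0
  have hb1 : b ≠ 1 := fun h => hζ1 ((algebraMap k K).injective (by rw [← hb, h, map_one]))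
  have hbq : b ^ q = 1 := by rw [hb, ← map_pow, hζ.pow_eq_one, map_one]
  obtain ⟨c, hc⟩ := IsAlgClosed.exists_pow_nat_eq (1 - a * b) (n := 2) (by norm_num)
  have hab : a = (1 - c ^ 2) / b := by rw [hc]; field_simp; ring
  have hc0 : c ≠ 0 := by
    rintro rfl
    refine ha ⟨ζ⁻¹, ?_⟩
    rw [hab, map_inv₀, ← hb]; simp
  have hcr : c ∉ Set.range (algebraMap k K) := by
    rintro ⟨γ, hγ⟩
    refine ha ⟨(1 - γ ^ 2) / ζ, ?_⟩
    rw [hab, ← hγ, map_div₀, map_sub, map_pow, map_one]
  have h : WCyc b c m (algebraMap k K lam') (fun i => (b * y i + 1) / c) := toW hy hyx hb0 hc hc0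
  set W : ℕ → K := fun i => (b * y i + 1) / c
  set s : K := (b - 1 - c ^ 2) / c with hs
  have hsr : s ∉ Set.range (algebraMap k K) := by
    rintro ⟨σ, hσ⟩
    refine hcr (mem_of_root (Polynomial.X ^ 2 + Polynomial.C σ * Polynomial.X
      - Polynomial.C (ζ - 1)) ?_ ?_)
    · intro h0
      have := congrArg (fun p => Polynomial.coeff p 2) h0
      simp [Polynomial.coeff_X, Polynomial.coeff_C, Polynomial.coeff_one] at this
    · simp only [map_sub, map_add, map_mul, map_pow, Polynomial.aeval_X, Polynomial.aeval_C,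
        hσ, map_one, ← hb]
      rw [hs]
      field_simp
      ring
  have hs0 : s ≠ 0 := fun h0 => hsr ⟨0, by rw [map_zero, h0]⟩
  have hcon : ∀ B : ValuationSubring K, Ext (⊤ : ValuationSubring k) B.valuation →
      ∀ α : k, α ≠ 0 → B.valuation (algebraMap k K α) = 1 := fun B hE α hα =>
    (hE.eq_one_iff α).2 (top_val_eq hα)
  have hCZ : ∀ B : ValuationSubring K, Ext (⊤ : ValuationSubring k) B.valuation →
      CharZ B.valuation := fun B hE j hj => by
    have := hcon B hE (j : k) (Nat.cast_ne_zero.2 hj)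
    rwa [map_natCast] at this
  -- places where `s` is infinite
  have hinf : ∀ B : ValuationSubring K, Ext (⊤ : ValuationSubring k) B.valuation →
      1 < B.valuation s → B.valuation (∏ i ∈ range m, (W i ^ 2 - 1)⁻¹) < 1 := by
    intro B hE hsB
    have key : ∀ c' : K, c' ≠ 0 → B.valuation c' < 1 → WCyc b c' m (algebraMap k K lam') W →
        B.valuation (∏ i ∈ range m, (W i ^ 2 - 1)⁻¹) < 1 := by
      intro c' hc' hlt h'
      have hbj : ∀ j : ℕ, ¬ q ∣ j → B.valuation (b ^ j - 1) = 1 := by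
        intro j hj
        have h1 : ζ ^ j - 1 ≠ 0 := sub_ne_zero.2 fun h2 => hj ((hζ.pow_eq_one_iff_dvd j).1 h2)
        have h2 := hcon B hE _ h1
        rwa [map_sub, map_pow, map_one] at h2
      have hCtx : Ctx B.valuation b c' := by
        refine ⟨hcon B hE ζ hζ0, hlt, hc', ?_⟩
        have h1 := hbj 1 (fun h2 => by have := Nat.le_of_dvd one_pos h2; omega)
        rw [pow_one] at h1
        rwa [h1]
      have hRot : Rot B.valuation b c' q := by
        refine ⟨hq, fun j hj hjq => hbj j fun h2 => ?_, ?_⟩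
        · have := Nat.le_of_dvd hj h2; omega
        · rw [hbq, sub_self, map_zero]; exact zero_le
      exact N1.infinite _ hCtx (hCZ B hE) hRot hbq h' (hcon B hE lam' l0')
    have hv1 : B.valuation (b - 1) = 1 := by
      have h1 := hcon B hE (ζ - 1) (sub_ne_zero.2 hζ1)
      rwa [map_sub, map_one] at h1
    rcases lt_trichotomy (B.valuation c) 1 with h1 | h1 | h1
    · exact key c hc0 h1 h
    · exfalso
      have e : s = (b - 1) / c - c := by rw [hs]; field_simp
      rw [e] at hsB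
      refine absurd hsB (not_lt.2 (B.valuation.map_sub_le ?_ h1.le))
      rw [map_div₀, hv1, h1, div_one]
    · refine key (-(b - 1) / c) (div_ne_zero (neg_ne_zero.2 (sub_ne_zero.2 hb1)) hc0) ?_
        (N1.other h hm hb1)
      rw [map_div₀, Valuation.map_neg, hv1, one_div]
      exact inv_lt_one_of_one_lt₀ h1
  have hle : ∀ B : ValuationSubring K, Ext (⊤ : ValuationSubring k) B.valuation →
      B.valuation (∏ i ∈ range m, (W i ^ 2 - 1)⁻¹) ≤ 1 := by
    intro B hE
    rcases le_or_gt (B.valuation s) 1 with h1 | h1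
    · exact N1.finite _ h (hcon B hE ζ hζ0) (hcon B hE lam' l0') h1
    · exact (hinf B hE h1).le
  have hX0 : ∏ i ∈ range m, (W i ^ 2 - 1)⁻¹ ≠ 0 := by
    rw [prod_inv_distrib]
    refine inv_ne_zero ?_
    rw [h.mul]
    exact mul_ne_zero (mul_ne_zero ((_root_.map_ne_zero _).2 l0') (pow_ne_zero _ hb0))
      (prod_ne_zero_iff.2 fun i _ => pow_ne_zero 2 (h.ne0 i))
  have hXr : ∏ i ∈ range m, (W i ^ 2 - 1)⁻¹ ∈ Set.range (algebraMap k K) := by
    by_contra hno
    have h1 : (∏ i ∈ range m, (W i ^ 2 - 1)⁻¹)⁻¹ ∉ Set.range (algebraMap k K) := by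
      rintro ⟨x, hx⟩
      exact hno ⟨x⁻¹, by rw [map_inv₀, hx, inv_inv]⟩
    obtain ⟨B, hE, hB⟩ := exists_close (⊤ : ValuationSubring k) h1
    rw [map_inv₀] at hB
    have h2 : 1 < B.valuation (∏ i ∈ range m, (W i ^ 2 - 1)⁻¹) :=
      (inv_lt_one₀ (zero_lt_iff.2 (B.valuation.ne_zero_iff.2 hX0))).1 hB
    exact absurd (hle B hE) (not_le.2 h2)
  obtain ⟨x, hx⟩ := hXr
  have hx0 : x ≠ 0 := by
    rintro rfl
    rw [map_zero] at hx
    exact hX0 hx.symm
  have h1 : s⁻¹ ∉ Set.range (algebraMap k K) := by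
    rintro ⟨x, hx⟩
    exact hsr ⟨x⁻¹, by rw [map_inv₀, hx, inv_inv]⟩
  obtain ⟨B, hE, hB⟩ := exists_close (⊤ : ValuationSubring k) h1
  rw [map_inv₀] at hB
  have h2 : 1 < B.valuation s :=
    (inv_lt_one₀ (zero_lt_iff.2 (B.valuation.ne_zero_iff.2 hs0))).1 hB
  have h3 := hinf B hE h2
  rw [← hx, hcon B hE x hx0] at h3
  exact lt_irrefl _ h3

end N1

end Pool.Agent.helper56.P3
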